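import Pool.Agent.H75.TT.Abs
import Pool.Agent.H95.TT.Split

set_option linter.unusedSectionVars false

/-!
Elementary facts about geometric functors, localizing ideals and tt-fields.
-/

open CategoryTheory CategoryTheory.Limits CategoryTheory.Pretriangulated MonoidalCategory

namespace Pool.Agent.H20.TT

open Pool.Agent.H75.TT Pool.Agent.H95.TT

section basic

variable {C : Type 1} [Category.{0} C] [Preadditive C] [HasCoproducts.{0} C]
  [HasZeroObject C] [HasShift C ℤ] [∀ n : ℤ, (shiftFunctor C n).Additive] [Pretriangulated C]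

/-- A retract of a zero object is zero. -/
lemma isZero_of_retract {D : Type*} [Category* D] [Preadditive D] {x y : D} (r : Retract x y)
    (h : IsZero y) : IsZero x := by
  rw [IsZero.iff_id_eq_zero, ← r.retract, h.eq_of_tgt r.i 0, zero_comp]

/-- Idempotents split, and the image is a homotopy colimit. -/
theorem idem_split' {X : C} (e : X ⟶ X) (he : e ≫ e = e) :
    ∃ (Y : C) (i : Y ⟶ X) (p : X ⟶ Y) (g : ∐ (fun _ : ℕ => X) ⟶ ∐ (fun _ : ℕ => X))
      (a : ∐ (fun _ : ℕ => X) ⟶ Y) (b : Y ⟶ (∐ (fun _ : ℕ => X))⟦(1 : ℤ)⟧),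
      i ≫ p = 𝟙 Y ∧ p ≫ i = e ∧ Tri g a b := by
  obtain ⟨L, j, hL⟩ := exists_isHocolim (fun _ : ℕ => X) (fun _ => e)
  let ρ : ∀ _ : ℕ, X ⟶ ∐ (fun _ : ℕ => X) := fun n =>
    (𝟙 X - e) ≫ Sigma.ι (fun _ : ℕ => X) n -
      ∑ k ∈ Finset.range n, e ≫ Sigma.ι (fun _ : ℕ => X) k
  have hr : (𝟙 (∐ (fun _ : ℕ => X)) - smap (fun _ => e)) ≫ Sigma.desc ρ = 𝟙 _ := by
    refine Sigma.hom_ext _ _ fun n => ?_
    have h1 : e ≫ ρ (n + 1) = - ∑ k ∈ Finset.range (n + 1), e ≫ Sigma.ι (fun _ : ℕ => X) k := by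
      simp only [ρ, Preadditive.comp_sub, Preadditive.sub_comp, Category.id_comp,
        Preadditive.comp_sum]
      rw [← Category.assoc, he, sub_self, zero_sub]
      congr 1
      refine Finset.sum_congr rfl fun k _ => ?_
      rw [← Category.assoc, he]
    rw [Preadditive.sub_comp, Preadditive.comp_sub, Category.id_comp, ι_smap_assoc,
      Sigma.ι_desc, Sigma.ι_desc, h1, Category.comp_id]
    simp only [ρ, Preadditive.sub_comp, Category.id_comp]
    rw [Finset.sum_range_succ]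
    abel
  have hj : ∀ n, e ≫ j n = j n := by
    intro n
    rw [← hL.comp_i n, ← Category.assoc, he]
  have hj0 : ∀ n, j n = j 0 := by
    intro n
    induction n with
    | zero => rfl
    | succ n ih => rw [← ih, ← hj (n + 1), hL.comp_i n]
  obtain ⟨q, hq⟩ := hL.exists_desc (fun _ => e) (fun _ => he)
  have hqj : q ≫ j 0 = 𝟙 L := by
    refine hL.hom_ext_of_retraction _ hr fun n => ?_
    rw [← Category.assoc, hq, hj, Category.comp_id]
    exact (hj0 n).symm
  obtain ⟨δ, hT⟩ := hL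
  exact ⟨L, q, j 0, _, _, δ, hqj, hq 0, hT⟩

variable [MonoidalCategory C]

/-- Localizing ideals are closed under retracts. -/
lemma IsLocIdeal.retract {L : C → Prop} (hL : IsLocIdeal L) {x y : C} (r : Retract x y)
    (hy : L y) : L x := by
  have he : (r.r ≫ r.i) ≫ (r.r ≫ r.i) = r.r ≫ r.i := by
    rw [Category.assoc, ← Category.assoc r.i, r.retract, Category.id_comp]
  obtain ⟨Y, i, p, g, a, b, h1, h2, hT⟩ := idem_split' (r.r ≫ r.i) he
  have hY : L Y := hL.triangle hT (hL.coprod _ fun _ => hy) (hL.coprod _ fun _ => hy)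
  refine hL.iso hY ⟨⟨i ≫ r.r, r.i ≫ p, ?_, ?_⟩⟩
  · have : (i ≫ r.r) ≫ (r.i ≫ p) = i ≫ (r.r ≫ r.i) ≫ p := by simp
    rw [this, ← h2]
    simp only [Category.assoc]
    rw [h1, Category.comp_id, h1]
  · have : (r.i ≫ p) ≫ (i ≫ r.r) = r.i ≫ (p ≫ i) ≫ r.r := by simp
    rw [this, h2]
    simp only [Category.assoc, r.retract, Category.comp_id]

lemma IsLocIdeal.obj₂ {L : C → Prop} (hL : IsLocIdeal L) {T : Triangle C}
    (hT : T ∈ distTriang C) (h1 : L T.obj₁) (h3 : L T.obj₃) : L T.obj₂ :=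
  hL.triangle (inv_rot_of_distTriang _ hT) (hL.shift (-1) h3) h1

lemma IsLocIdeal.biprod {L : C → Prop} (hL : IsLocIdeal L) {x y : C} (hx : L x) (hy : L y) :
    L (x ⊞ y) :=
  IsLocIdeal.obj₂ hL (binaryBiproductTriangle_distinguished x y) hx hy

/-- The localizing ideal generated by a class is a localizing ideal. -/
lemma isLocIdeal_locIdeal (S : C → Prop) : IsLocIdeal (LocIdeal S) where
  iso := fun hx e L hL hS => hL.iso (hx L hL hS) e
  zero := fun hx _ hL _ => hL.zero hx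
  shift := fun n hx L hL hS => hL.shift n (hx L hL hS)
  triangle := fun hT h1 h2 M hL hS => hL.triangle hT (h1 M hL hS) (h2 M hL hS)
  coprod := fun x hx L hL hS => hL.coprod x fun j => hx j L hL hS
  ideal := fun hy L hL hS => hL.ideal (hy L hL hS)

lemma mem_locIdeal {S : C → Prop} {x : C} (h : S x) : LocIdeal S x :=
  fun _ _ hS => hS x h

lemma Spc_obj₂ (P : Spc C) {T : Triangle C} (hT : T ∈ distTriang C) (h1 : P.mem T.obj₁)
    (h3 : P.mem T.obj₃) : P.mem T.obj₂ :=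
  P.triangle (inv_rot_of_distTriang _ hT) (P.shift (-1) h3) h1

lemma Spc_biprod (P : Spc C) {x y : C} (hx : P.mem x) (hy : P.mem y) : P.mem (x ⊞ y) :=
  Spc_obj₂ P (binaryBiproductTriangle_distinguished x y) hx hy

end basic

section big

variable {S : BigTT.{0}}

lemma whiskerRight_zero' (A B X : S.C) : (0 : A ⟶ B) ▷ X = 0 := by
  obtain ⟨_, _⟩ := RigidlyCompactlyGenerated.exact_right X
  exact (tensorRight X).map_zero A B

lemma whiskerLeft_zero' (A B X : S.C) : X ◁ (0 : A ⟶ B) = 0 := by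
  obtain ⟨_, _⟩ := RigidlyCompactlyGenerated.exact_left X
  exact (tensorLeft X).map_zero A B

lemma isZero_tensor_right (X : S.C) {Y : S.C} (h : IsZero Y) : IsZero (X ⊗ Y) := by
  rw [IsZero.iff_id_eq_zero] at h ⊢
  rw [← MonoidalCategory.whiskerLeft_id, h, whiskerLeft_zero']

lemma isZero_tensor_left {X : S.C} (Y : S.C) (h : IsZero X) : IsZero (X ⊗ Y) := by
  rw [IsZero.iff_id_eq_zero] at h ⊢
  rw [← MonoidalCategory.id_whiskerRight, h, whiskerRight_zero']

lemma isCpt_unit : IsCpt (𝟙_ S.C) := by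
  rw [RigidlyCompactlyGenerated.compact_iff_rigid]
  exact ⟨inferInstance⟩

lemma isCpt_tensor {X Y : S.C} (hX : IsCpt X) (hY : IsCpt Y) : IsCpt (X ⊗ Y) := by
  rw [RigidlyCompactlyGenerated.compact_iff_rigid] at hX hY ⊢
  obtain ⟨X', _⟩ := hX
  obtain ⟨Y', _⟩ := hY
  exact ⟨⟨Y' ⊗ X'⟩⟩

/-- Compact objects have compact duals. -/
lemma exists_dual {X : S.C} (hX : IsCpt X) : ∃ X' : S.C, IsCpt X' ∧ Nonempty (ExactPairing X X') := by
  have hX' := hX
  rw [RigidlyCompactlyGenerated.compact_iff_rigid] at hX'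
  obtain ⟨⟨X'⟩⟩ := hX'
  refine ⟨X', ?_, ⟨inferInstance⟩⟩
  rw [RigidlyCompactlyGenerated.compact_iff_rigid]
  have : ExactPairing X' X := BraidedCategory.exactPairing_swap X X'
  exact ⟨⟨X⟩⟩

end big

section geom

variable {S K : BigTT.{0}} (G : GeomFunctor S K)

attribute [instance] GeomFunctor.braided

lemma obj_isZero {t : S.C} (h : IsZero t) : IsZero (G.F.obj t) := by
  obtain ⟨_, _⟩ := G.exact
  exact G.F.map_isZero h

lemma map_zero' (A B : S.C) : G.F.map (0 : A ⟶ B) = 0 := by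
  obtain ⟨_, _⟩ := G.exact
  exact G.F.map_zero A B

lemma map_add' {A B : S.C} (f g : A ⟶ B) : G.F.map (f + g) = G.F.map f + G.F.map g := by
  obtain ⟨_, _⟩ := G.exact
  exact G.F.map_add

lemma map_sub' {A B : S.C} (f g : A ⟶ B) : G.F.map (f - g) = G.F.map f - G.F.map g := by
  obtain ⟨_, _⟩ := G.exact
  exact G.F.map_sub

lemma shift_isZero {t : S.C} (n : ℤ) (h : IsZero (G.F.obj t)) : IsZero (G.F.obj (t⟦n⟧)) := by
  obtain ⟨_, _⟩ := G.exact
  exact ((shiftFunctor K.C n).map_isZero h).of_iso ((G.F.commShiftIso n).app t)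

lemma tri_isZero {T : Triangle S.C} (hT : T ∈ distTriang S.C) (h1 : IsZero (G.F.obj T.obj₁))
    (h2 : IsZero (G.F.obj T.obj₂)) : IsZero (G.F.obj T.obj₃) := by
  obtain ⟨_, _⟩ := G.exact
  have h := G.F.map_distinguished _ hT
  refine (Triangle.isZero₃_iff_isIso₁ _ h).2 ?_
  exact (IsZero.iso h1 h2).isIso_hom.1 |> fun _ => by
    have : (G.F.mapTriangle.obj T).mor₁ = (IsZero.iso h1 h2).hom := h1.eq_of_src _ _
    rw [this]
    infer_instance

lemma retract_isZero {x y : S.C} (r : Retract x y) (h : IsZero (G.F.obj y)) :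
    IsZero (G.F.obj x) := isZero_of_retract (r.map G.F) h

lemma tensor_isZero_right (x : S.C) {y : S.C} (h : IsZero (G.F.obj y)) :
    IsZero (G.F.obj (x ⊗ y)) :=
  (isZero_tensor_right (G.F.obj x) h).of_iso (Functor.Monoidal.μIso G.F x y).symm

lemma tensor_isZero_left {x : S.C} (y : S.C) (h : IsZero (G.F.obj x)) :
    IsZero (G.F.obj (x ⊗ y)) :=
  (isZero_tensor_left (G.F.obj y) h).of_iso (Functor.Monoidal.μIso G.F x y).symm

lemma coprod_isZero {J : Type} (x : J → S.C) (h : ∀ j, IsZero (G.F.obj (x j))) :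
    IsZero (G.F.obj (∐ x)) := by
  have := G.coprod J
  refine IsZero.of_iso ?_ (PreservesCoproduct.iso G.F x)
  rw [IsZero.iff_id_eq_zero]
  refine Sigma.hom_ext _ _ fun j => ?_
  exact (h j).eq_of_src _ _

lemma map_whiskerRight_zero {A B : S.C} (X : S.C) {f : A ⟶ B} (h : G.F.map f = 0) :
    G.F.map (f ▷ X) = 0 := by
  rw [Functor.Monoidal.map_whiskerRight, h, whiskerRight_zero', zero_comp, comp_zero]

lemma map_whiskerLeft_zero {A B : S.C} (X : S.C) {f : A ⟶ B} (h : G.F.map f = 0) :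
    G.F.map (X ◁ f) = 0 := by
  rw [Functor.Monoidal.map_whiskerLeft, h, whiskerLeft_zero', zero_comp, comp_zero]

lemma map_whiskerLeft_id {A : S.C} (X : S.C) {f : A ⟶ A} (h : G.F.map f = 𝟙 _) :
    G.F.map (X ◁ f) = 𝟙 _ := by
  rw [Functor.Monoidal.map_whiskerLeft, h, MonoidalCategory.whiskerLeft_id, Category.id_comp,
    Functor.Monoidal.δ_μ]

/-- The kernel of a geometric functor is a localizing ideal. -/
lemma isLocIdeal_ker : IsLocIdeal (fun t : S.C => IsZero (G.F.obj t)) where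
  iso := fun hx ⟨e⟩ => hx.of_iso (G.F.mapIso e.symm)
  zero := obj_isZero G
  shift := shift_isZero G
  triangle := tri_isZero G
  coprod := coprod_isZero G
  ideal := tensor_isZero_right G _

lemma unit_not_isZero (hK : FieldLike K) : ¬ IsZero (G.F.obj (𝟙_ S.C)) := fun h =>
  hK.1 (h.of_iso (Functor.Monoidal.εIso G.F))

/-- A map out of the unit with nonzero image splits after applying the functor. -/
lemma exists_retraction (hK : FieldLike K) {t : S.C} (u : 𝟙_ S.C ⟶ t) (hu : G.F.map u ≠ 0) :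
    ∃ w : G.F.obj t ⟶ G.F.obj (𝟙_ S.C), G.F.map u ≫ w = 𝟙 _ := by
  have h1 : (Functor.Monoidal.εIso G.F).hom ≫ G.F.map u ≠ 0 := by
    intro h
    apply hu
    rw [← cancel_epi (Functor.Monoidal.εIso G.F).hom, h, comp_zero]
  obtain ⟨w, hw⟩ := hK.2 _ _ h1
  refine ⟨w ≫ (Functor.Monoidal.εIso G.F).hom, ?_⟩
  rw [← cancel_epi (Functor.Monoidal.εIso G.F).hom, Category.comp_id, ← Category.assoc,
    ← Category.assoc, hw, Category.id_comp]

/-- If the coevaluation of a rigid object is killed, the object is killed. -/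
lemma isZero_of_coev {x x' : S.C} [ExactPairing x x']
    (h : G.F.map (ExactPairing.coevaluation x x') = 0) : IsZero (G.F.obj x) := by
  rw [IsZero.iff_id_eq_zero, ← G.F.map_id]
  have h1 : 𝟙 x = (λ_ x).inv ≫ ((ExactPairing.coevaluation x x') ▷ x ≫ (α_ _ _ _).hom ≫
      x ◁ (ExactPairing.evaluation x x')) ≫ (ρ_ x).hom := by
    rw [ExactPairing.evaluation_coevaluation]
    simp
  rw [h1, G.F.map_comp, G.F.map_comp, G.F.map_comp, map_whiskerRight_zero G _ h, zero_comp,
    zero_comp, comp_zero]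

/-- Kernels on compact objects of geometric functors to tt-fields are prime. -/
lemma prime_of_field (hK : FieldLike K) {x y : S.C} (hx : IsCpt x)
    (h : IsZero (G.F.obj (x ⊗ y))) : IsZero (G.F.obj x) ∨ IsZero (G.F.obj y) := by
  obtain ⟨x', _, ⟨hx'⟩⟩ := exists_dual hx
  by_cases h0 : G.F.map (ExactPairing.coevaluation x x') = 0
  · exact Or.inl (isZero_of_coev G h0)
  right
  obtain ⟨w, hw⟩ := exists_retraction G hK _ h0
  have h1 : IsZero (G.F.obj ((x ⊗ x') ⊗ y)) := by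
    refine IsZero.of_iso (tensor_isZero_right G x' h) (G.F.mapIso ?_)
    exact (β_ x x') ▷ᵢ y ≪≫ α_ _ _ _
  have h2 : IsZero (G.F.obj (x ⊗ x') ⊗ G.F.obj y) :=
    h1.of_iso (Functor.Monoidal.μIso G.F (x ⊗ x') y)
  have h3 : IsZero (G.F.obj (𝟙_ S.C) ⊗ G.F.obj y) := by
    refine isZero_of_retract ⟨G.F.map (ExactPairing.coevaluation x x') ▷ _, w ▷ _, ?_⟩ h2
    rw [← comp_whiskerRight, hw, id_whiskerRight]
  refine (h3.of_iso ?_)
  exact (λ_ (G.F.obj y)).symm ≪≫ (Functor.Monoidal.εIso G.F) ▷ᵢ _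

/-- The prime of a geometric functor to a tt-field. -/
def pt (hK : FieldLike K) : Spc S.C where
  mem x := IsCpt x ∧ IsZero (G.F.obj x)
  compact := fun h => h.1
  iso := fun h ⟨e⟩ => ⟨isCpt_of_iso e h.1, h.2.of_iso (G.F.mapIso e.symm)⟩
  zero := fun h => ⟨isCpt_of_isZero h, obj_isZero G h⟩
  shift := fun n h => ⟨isCpt_shift h.1 n, shift_isZero G n h.2⟩
  triangle := fun hT h1 h2 => ⟨isCpt_obj₃ hT h1.1 h2.1, tri_isZero G hT h1.2 h2.2⟩
  retract := fun ⟨r⟩ h => ⟨isCpt_of_retract r h.1, retract_isZero G r h.2⟩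
  ideal := fun hx h => ⟨isCpt_tensor hx h.1, tensor_isZero_right G _ h.2⟩
  ne_top := fun h => unit_not_isZero G hK h.2
  prime := fun hx hy h => (prime_of_field G hK hx h.2).imp (fun h => ⟨hx, h⟩) (fun h => ⟨hy, h⟩)

end geom

end Pool.Agent.H20.TT
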