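import Pool.Agent.H20.TT.Geom

set_option linter.unusedSectionVars false

/-!
Consequences of a full and faithful pair of geometric functors to tt-fields.
-/

open CategoryTheory CategoryTheory.Limits CategoryTheory.Pretriangulated MonoidalCategory

namespace Pool.Agent.H20.TT

open Pool.Agent.H75.TT Pool.Agent.H95.TT

variable {S K1 K2 : BigTT.{0}} {G1 : GeomFunctor S K1} {G2 : GeomFunctor S K2}

lemma SplitPair.swap (h : SplitPair S K1 K2 G1 G2) : SplitPair S K2 K1 G2 G1 where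
  field1 := h.field2
  field2 := h.field1
  full := fun A B f1 f2 => by
    obtain ⟨f, hf1, hf2⟩ := h.full A B f2 f1
    exact ⟨f, hf2, hf1⟩
  faithful := fun A B f h1 h2 => h.faithful A B f h2 h1

lemma SplitPair.ext (h : SplitPair S K1 K2 G1 G2) {A B : S.C} {f g : A ⟶ B}
    (h1 : G1.F.map f = G1.F.map g) (h2 : G2.F.map f = G2.F.map g) : f = g := by
  rw [← sub_eq_zero]
  refine h.faithful _ _ _ ?_ ?_
  · rw [map_sub', h1, sub_self]
  · rw [map_sub', h2, sub_self]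

/-- Joint conservativity. -/
lemma SplitPair.isZero (h : SplitPair S K1 K2 G1 G2) {t : S.C} (h1 : IsZero (G1.F.obj t))
    (h2 : IsZero (G2.F.obj t)) : IsZero t := by
  rw [IsZero.iff_id_eq_zero]
  exact h.faithful _ _ _ (h1.eq_of_src _ _) (h2.eq_of_src _ _)

lemma SplitPair.hom_eq_zero (h : SplitPair S K1 K2 G1 G2) {A B : S.C}
    (h1 : IsZero (G1.F.obj A) ∨ IsZero (G1.F.obj B))
    (h2 : IsZero (G2.F.obj A) ∨ IsZero (G2.F.obj B)) (f : A ⟶ B) : f = 0 := by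
  refine h.faithful _ _ _ ?_ ?_
  · rcases h1 with h1 | h1
    · exact h1.eq_of_src _ _
    · exact h1.eq_of_tgt _ _
  · rcases h2 with h2 | h2
    · exact h2.eq_of_src _ _
    · exact h2.eq_of_tgt _ _

/-- The decomposition of an object in its two components. -/
structure Decomp (G1 : GeomFunctor S K1) (G2 : GeomFunctor S K2) (t : S.C) where
  A1 : S.C
  A2 : S.C
  i1 : A1 ⟶ t
  p1 : t ⟶ A1
  i2 : A2 ⟶ t
  p2 : t ⟶ A2
  i1p1 : i1 ≫ p1 = 𝟙 A1
  i2p2 : i2 ≫ p2 = 𝟙 A2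
  total : p1 ≫ i1 + p2 ≫ i2 = 𝟙 t
  z1 : IsZero (G2.F.obj A1)
  z2 : IsZero (G1.F.obj A2)

lemma SplitPair.exists_decomp (h : SplitPair S K1 K2 G1 G2) (t : S.C) :
    Nonempty (Decomp G1 G2 t) := by
  obtain ⟨e, he1, he2⟩ := h.full t t (𝟙 _) 0
  have he : e ≫ e = e := by
    refine SplitPair.ext h ?_ ?_
    · rw [Functor.map_comp, he1, Category.comp_id]
    · rw [Functor.map_comp, he2, comp_zero]
  have hf : (𝟙 t - e) ≫ (𝟙 t - e) = 𝟙 t - e := by
    simp only [Preadditive.comp_sub, Preadditive.sub_comp, Category.comp_id, Category.id_comp, he]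
    abel
  obtain ⟨A1, i1, p1, h1, h1'⟩ := idem_split e he
  obtain ⟨A2, i2, p2, h2, h2'⟩ := idem_split (𝟙 t - e) hf
  refine ⟨⟨A1, A2, i1, p1, i2, p2, h1, h2, by rw [h1', h2']; abel, ?_, ?_⟩⟩
  · rw [IsZero.iff_id_eq_zero, ← G2.F.map_id]
    have : 𝟙 A1 = i1 ≫ e ≫ p1 := by
      rw [← h1', Category.assoc, h1, Category.comp_id, h1]
    rw [this, Functor.map_comp, Functor.map_comp, he2, zero_comp, comp_zero]
  · rw [IsZero.iff_id_eq_zero, ← G1.F.map_id]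
    have : 𝟙 A2 = i2 ≫ (𝟙 t - e) ≫ p2 := by
      rw [← h2', Category.assoc, h2, Category.comp_id, h2]
    rw [this, Functor.map_comp, Functor.map_comp, map_sub', he1, G1.F.map_id, sub_self,
      zero_comp, comp_zero]

namespace Decomp

variable {t : S.C} (d : Decomp G1 G2 t)

/-- Exchange the two components. -/
def swap : Decomp G2 G1 t :=
  ⟨d.A2, d.A1, d.i2, d.p2, d.i1, d.p1, d.i2p2, d.i1p1, by rw [add_comm]; exact d.total,
    d.z2, d.z1⟩

/-- The first component is a retract. -/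
def ret1 : Retract d.A1 t := ⟨d.i1, d.p1, d.i1p1⟩

/-- The second component is a retract. -/
def ret2 : Retract d.A2 t := ⟨d.i2, d.p2, d.i2p2⟩

/-- The object is a retract of the sum of its components. -/
noncomputable def ret : Retract t (d.A1 ⊞ d.A2) :=
  ⟨biprod.lift d.p1 d.p2, biprod.desc d.i1 d.i2, by rw [biprod.lift_desc, d.total]⟩

lemma i1p2 (h : SplitPair S K1 K2 G1 G2) : d.i1 ≫ d.p2 = 0 :=
  SplitPair.hom_eq_zero h (Or.inr d.z2) (Or.inl d.z1) _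

lemma i2p1 (h : SplitPair S K1 K2 G1 G2) : d.i2 ≫ d.p1 = 0 :=
  SplitPair.hom_eq_zero h (Or.inl d.z2) (Or.inr d.z1) _

end Decomp


/-- A nonzero map from a compact object which lives over the first point. -/
lemma exists_hom (h : SplitPair S K1 K2 G1 G2) {t : S.C} (ht : ¬ IsZero (G1.F.obj t)) :
    ∃ (c : S.C) (φ : c ⟶ t), IsCpt c ∧ IsZero (G2.F.obj c) ∧ φ ≠ 0 := by
  obtain ⟨d⟩ := SplitPair.exists_decomp h t
  have hA1 : ¬ IsZero d.A1 := by
    intro h0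
    apply ht
    rw [IsZero.iff_id_eq_zero, ← G1.F.map_id, ← d.total, h0.eq_of_tgt d.p1 0, zero_comp, zero_add,
      G1.F.map_comp, d.z2.eq_of_src (G1.F.map d.i2) 0, comp_zero]
  obtain ⟨J, G, hG, hgen⟩ := RigidlyCompactlyGenerated.generated (C := S.C)
  by_contra hcon
  apply hA1
  refine hgen _ fun j n f => ?_
  by_contra hf
  apply hcon
  have hc : IsCpt ((G j)⟦n⟧) := isCpt_shift (hG j) n
  obtain ⟨c⟩ := SplitPair.exists_decomp h ((G j)⟦n⟧)
  refine ⟨c.A1, c.i1 ≫ f ≫ d.i1, isCpt_of_retract c.ret1 hc, c.z1, ?_⟩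
  intro h0
  apply hf
  have h1 : f = (c.p1 ≫ c.i1 + c.p2 ≫ c.i2) ≫ f := by rw [c.total, Category.id_comp]
  rw [h1, Preadditive.add_comp, Category.assoc, Category.assoc,
    SplitPair.hom_eq_zero h (Or.inl c.z2) (Or.inr d.z1) (c.i2 ≫ f), comp_zero, add_zero]
  have h2 : c.i1 ≫ f = (c.i1 ≫ f ≫ d.i1) ≫ d.p1 := by
    simp only [Category.assoc]
    rw [d.i1p1, Category.comp_id]
  rw [h2, h0, zero_comp, comp_zero]

/-- If `G1 t` is nonzero then every object over the first point is a retract of a tensor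
multiple of `t`. -/
lemma exists_factor (h : SplitPair S K1 K2 G1 G2) {t : S.C} (ht : ¬ IsZero (G1.F.obj t)) :
    ∃ d : S.C, IsCpt d ∧ ∀ A : S.C, IsZero (G2.F.obj A) → Nonempty (Retract A (A ⊗ (t ⊗ d))) := by
  obtain ⟨c, φ, hc, hc2, hφ⟩ := exists_hom h ht
  obtain ⟨d, hd, ⟨hcd⟩⟩ := exists_dual hc
  refine ⟨d, hd, ?_⟩
  let u : 𝟙_ S.C ⟶ t ⊗ d := tensorRightHomEquiv (𝟙_ S.C) c d t ((λ_ c).hom ≫ φ)
  have hu : u ≠ 0 := by
    intro h0
    apply hφ
    have h1 : (tensorRightHomEquiv (𝟙_ S.C) c d t).symm u = (λ_ c).hom ≫ φ :=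
      Equiv.symm_apply_apply _ _
    rw [h0] at h1
    rw [← cancel_epi (λ_ c).hom, comp_zero, ← h1]
    change (0 : 𝟙_ S.C ⟶ t ⊗ d) ▷ c ≫ _ = 0
    rw [whiskerRight_zero', zero_comp]
  have hu2 : G2.F.map u = 0 := by
    have h0 : G2.F.map ((λ_ c).hom ≫ φ) = 0 := by
      rw [G2.F.map_comp, hc2.eq_of_src (G2.F.map φ) 0, comp_zero]
    have h1 : u = ((ρ_ _).inv ≫ (_ ◁ ExactPairing.coevaluation c d) ≫ (α_ _ _ _).inv) ≫
        (((λ_ c).hom ≫ φ) ▷ d) := by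
      simp [u, tensorRightHomEquiv]
    rw [h1, G2.F.map_comp, map_whiskerRight_zero G2 d h0, comp_zero]
  have hu1 : G1.F.map u ≠ 0 := fun h0 => hu (h.faithful _ _ _ h0 hu2)
  obtain ⟨w, hw⟩ := exists_retraction G1 h.field1 u hu1
  obtain ⟨v, hv1, hv2⟩ := h.full (t ⊗ d) (𝟙_ S.C) w 0
  intro A hA
  refine ⟨⟨(ρ_ A).inv ≫ A ◁ u, A ◁ v ≫ (ρ_ A).hom, ?_⟩⟩
  refine SplitPair.ext h ?_ (hA.eq_of_src _ _)
  have h1 : ((ρ_ A).inv ≫ A ◁ u) ≫ A ◁ v ≫ (ρ_ A).hom =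
      (ρ_ A).inv ≫ (A ◁ (u ≫ v)) ≫ (ρ_ A).hom := by
    rw [MonoidalCategory.whiskerLeft_comp]
    simp only [Category.assoc]
  rw [h1, G1.F.map_comp, G1.F.map_comp, map_whiskerLeft_id G1 A (f := u ≫ v)
    (by rw [G1.F.map_comp, hv1, hw]), Category.id_comp, ← G1.F.map_comp, Iso.inv_hom_id]

end Pool.Agent.H20.TT
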