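import Pool.Agent.H20.TT.Split

set_option linter.unusedSectionVars false

/-!
The abstract two-point theorem.
-/

open CategoryTheory CategoryTheory.Limits CategoryTheory.Pretriangulated MonoidalCategory
open ZeroObject

namespace Pool.Agent.H20.TT

open Pool.Agent.H75.TT Pool.Agent.H95.TT

variable {S K1 K2 : BigTT.{0}} {G1 : GeomFunctor S K1} {G2 : GeomFunctor S K2}

/-- A prime contains one of the two components of the unit. -/
lemma mem_or (h : SplitPair S K1 K2 G1 G2) (e : Decomp G1 G2 (𝟙_ S.C)) (P : Spc S.C) :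
    P.mem e.A1 ∨ P.mem e.A2 := by
  refine P.prime (isCpt_of_retract e.ret1 isCpt_unit) (isCpt_of_retract e.ret2 isCpt_unit) ?_
  refine P.zero (SplitPair.isZero h ?_ ?_)
  · exact tensor_isZero_right G1 _ e.z2
  · exact tensor_isZero_left G2 _ e.z1

lemma not_mem_and (e : Decomp G1 G2 (𝟙_ S.C)) (P : Spc S.C) (h1 : P.mem e.A1)
    (h2 : P.mem e.A2) : False :=
  P.ne_top (P.retract ⟨e.ret⟩ (Spc_biprod P h1 h2))

lemma A2_ne_zero (h : SplitPair S K1 K2 G1 G2) (e : Decomp G1 G2 (𝟙_ S.C)) :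
    ¬ IsZero (G2.F.obj e.A2) := by
  intro h0
  refine unit_not_isZero G2 h.field2 ?_
  rw [IsZero.iff_id_eq_zero, ← G2.F.map_id, ← e.total, map_add', G2.F.map_comp,
    G2.F.map_comp, e.z1.eq_of_src (G2.F.map e.i1) 0, h0.eq_of_src (G2.F.map e.i2) 0,
    comp_zero, comp_zero, add_zero]

/-- A prime containing the second component of the unit is the first point. -/
lemma eq_pt (h : SplitPair S K1 K2 G1 G2) (e : Decomp G1 G2 (𝟙_ S.C)) (P : Spc S.C)
    (h2 : P.mem e.A2) : P = pt G1 h.field1 := by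
  have h1 : ¬ P.mem e.A1 := fun h1 => not_mem_and e P h1 h2
  ext x
  constructor
  · intro hx
    refine ⟨P.compact hx, ?_⟩
    by_contra hx1
    obtain ⟨d, hd, hret⟩ := exists_factor h hx1
    apply h1
    refine P.retract (hret e.A1 e.z1) (P.ideal (isCpt_of_retract e.ret1 isCpt_unit) ?_)
    exact P.iso (P.ideal hd hx) ⟨β_ _ _⟩
  · rintro ⟨hx, hx1⟩
    obtain ⟨d, hd, hret⟩ := exists_factor (SplitPair.swap h) (A2_ne_zero h e)
    exact P.retract (hret x hx1) (P.ideal hx (P.iso (P.ideal hd h2) ⟨β_ _ _⟩))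

lemma pt_mem_A2 (h : SplitPair S K1 K2 G1 G2) (e : Decomp G1 G2 (𝟙_ S.C)) :
    (pt G1 h.field1).mem e.A2 :=
  ⟨isCpt_of_retract e.ret2 isCpt_unit, e.z2⟩

lemma pt_not_mem_A1 (h : SplitPair S K1 K2 G1 G2) (e : Decomp G1 G2 (𝟙_ S.C)) :
    ¬ (pt G1 h.field1).mem e.A1 := fun h1 => not_mem_and e _ h1 (pt_mem_A2 h e)

/-- There are exactly two points. -/
lemma eq_or (h : SplitPair S K1 K2 G1 G2) (P : Spc S.C) :
    P = pt G1 h.field1 ∨ P = pt G2 h.field2 := by
  obtain ⟨e⟩ := SplitPair.exists_decomp h (𝟙_ S.C)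
  rcases mem_or h e P with h1 | h1
  · exact Or.inr (eq_pt (SplitPair.swap h) e.swap P h1)
  · exact Or.inl (eq_pt h e P h1)

lemma pt_ne (h : SplitPair S K1 K2 G1 G2) : pt G1 h.field1 ≠ pt G2 h.field2 := by
  obtain ⟨e⟩ := SplitPair.exists_decomp h (𝟙_ S.C)
  intro h0
  apply pt_not_mem_A1 h e
  rw [h0]
  exact pt_mem_A2 (SplitPair.swap h) e.swap

lemma isOpen_pt (h : SplitPair S K1 K2 G1 G2) : IsOpen ({pt G1 h.field1} : Set (Spc S.C)) := by
  obtain ⟨e⟩ := SplitPair.exists_decomp h (𝟙_ S.C)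
  refine TopologicalSpace.isOpen_generateFrom_of_mem ⟨e.A2, isCpt_of_retract e.ret2 isCpt_unit, ?_⟩
  ext P
  simp only [Set.mem_singleton_iff, Set.mem_compl_iff, supp, Set.mem_ofPred_eq, not_not]
  constructor
  · rintro rfl
    exact pt_mem_A2 h e
  · exact eq_pt h e P

lemma finite_spc (h : SplitPair S K1 K2 G1 G2) : Finite (Spc S.C) := by
  refine Set.finite_univ_iff.1 ?_
  refine (Set.toFinite {pt G1 h.field1, pt G2 h.field2}).subset fun P _ => ?_
  exact eq_or h P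

lemma isOpen_all (h : SplitPair S K1 K2 G1 G2) (Y : Set (Spc S.C)) : IsOpen Y := by
  have : DiscreteTopology (Spc S.C) := by
    rw [discreteTopology_iff_isOpen_singleton]
    intro P
    rcases eq_or h P with rfl | rfl
    · exact isOpen_pt h
    · exact isOpen_pt (SplitPair.swap h)
  exact isOpen_discrete Y

lemma isThomason_all (h : SplitPair S K1 K2 G1 G2) (Y : Set (Spc S.C)) : IsThomason Y := by
  refine ⟨{Y}, ?_, by simp⟩
  rintro Z rfl
  refine ⟨⟨isOpen_all h _⟩, ?_⟩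
  have := finite_spc h
  exact (Set.toFinite _).isCompact

/-- The spectrum is weakly noetherian. -/
theorem SplitPair.weaklyNoetherian (h : SplitPair S K1 K2 G1 G2) : WeaklyNoetherian S.C :=
  fun P => ⟨{P}, ∅, isThomason_all h _, isThomason_all h _, by simp⟩

/-- If the first point is not in `Y`, the idempotent `e` vanishes there. -/
lemma idem_e_zero (h : SplitPair S K1 K2 G1 G2) {Y : Set (Spc S.C)} {e f : S.C}
    (hef : IsIdemTriangle Y e f) (hY : pt G1 h.field1 ∉ Y) : IsZero (G1.F.obj e) := by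
  obtain ⟨a, b, c, hT, he, hf⟩ := hef
  refine he _ (isLocIdeal_ker G1) ?_
  rintro x ⟨hx, hxY⟩
  by_contra hx1
  exact hY (hxY fun hmem => hx1 hmem.2)

lemma idem_f_zero (h : SplitPair S K1 K2 G1 G2) {Y : Set (Spc S.C)} {e f : S.C}
    (hef : IsIdemTriangle Y e f) (hY : pt G1 h.field1 ∈ Y) : IsZero (G1.F.obj f) := by
  obtain ⟨a, b, c, hT, he, hf⟩ := hef
  by_contra hf1
  obtain ⟨x, φ, hx, hx2, hφ⟩ := exists_hom h hf1
  apply hφ
  have h0 : supp x ⊆ Y := by
    intro P hP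
    rcases eq_or h P with rfl | rfl
    · exact hY
    · exact (hP ⟨hx, hx2⟩).elim
  have h1 := hf x hx h0 0 ((shiftFunctorZero S.C ℤ).hom.app x ≫ φ)
  rw [← cancel_epi ((shiftFunctorZero S.C ℤ).hom.app x), h1, comp_zero]

lemma idem_tri {Y : Set (Spc S.C)} {e f : S.C} (hef : IsIdemTriangle Y e f) (hK : FieldLike K1)
    (he : IsZero (G1.F.obj e)) (hf : IsZero (G1.F.obj f)) : False := by
  obtain ⟨a, b, c, hT, -, -⟩ := hef
  refine unit_not_isZero G1 hK ?_
  exact IsLocIdeal.obj₂ (isLocIdeal_ker G1) hT he hf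

/-- Balmer-Favi idempotents at the first point vanish at the second point. -/
lemma bf_zero (h : SplitPair S K1 K2 G1 G2) {g : S.C} (hg : IsBalmerFavi (pt G1 h.field1) g) :
    IsZero (G2.F.obj g) := by
  obtain ⟨Y, Z, e, f, e', f', -, -, hYZ, hef, hef', ⟨i⟩⟩ := hg
  have h2 : pt G2 h.field2 ∉ Y ∩ Zᶜ := by
    rw [← hYZ]
    exact fun h0 => pt_ne h (Set.mem_singleton_iff.1 h0).symm
  have h0 : IsZero (G2.F.obj (e ⊗ f')) := by
    by_cases hY : pt G2 h.field2 ∈ Y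
    · have hZ : pt G2 h.field2 ∈ Z := by
        by_contra hZ
        exact h2 ⟨hY, hZ⟩
      exact tensor_isZero_right G2 _ (idem_f_zero (SplitPair.swap h) hef' hZ)
    · exact tensor_isZero_left G2 _ (idem_e_zero (SplitPair.swap h) hef hY)
  exact h0.of_iso (G2.F.mapIso i)

lemma obj_iso_of_zero {X Y Z : S.C} {a : X ⟶ Y} {b : Y ⟶ Z} {c : Z ⟶ X⟦(1 : ℤ)⟧}
    (hT : Triangle.mk a b c ∈ distTriang S.C) (h : IsZero (G1.F.obj Z)) :
    Nonempty (G1.F.obj X ≅ G1.F.obj Y) := by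
  obtain ⟨_, _⟩ := G1.exact
  have h1 := G1.F.map_distinguished _ hT
  have h2 := (Triangle.isZero₃_iff_isIso₁ _ h1).1 h
  exact ⟨@asIso _ _ _ _ (G1.F.map a) h2⟩

lemma obj_iso_of_zero' {X Y Z : S.C} {a : X ⟶ Y} {b : Y ⟶ Z} {c : Z ⟶ X⟦(1 : ℤ)⟧}
    (hT : Triangle.mk a b c ∈ distTriang S.C) (h : IsZero (G1.F.obj X)) :
    Nonempty (G1.F.obj Y ≅ G1.F.obj Z) := by
  obtain ⟨_, _⟩ := G1.exact
  have h1 := G1.F.map_distinguished _ hT
  have h2 := (Triangle.isZero₁_iff_isIso₂ _ h1).1 h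
  exact ⟨@asIso _ _ _ _ (G1.F.map b) h2⟩

/-- Balmer-Favi idempotents at the first point do not vanish there. -/
lemma bf_ne_zero (h : SplitPair S K1 K2 G1 G2) {g : S.C}
    (hg : IsBalmerFavi (pt G1 h.field1) g) : ¬ IsZero (G1.F.obj g) := by
  obtain ⟨Y, Z, e, f, e', f', -, -, hYZ, hef, hef', ⟨i⟩⟩ := hg
  have h2 : pt G1 h.field1 ∈ Y ∩ Zᶜ := by
    rw [← hYZ]
    exact Set.mem_singleton _
  have hf : IsZero (G1.F.obj f) := idem_f_zero h hef h2.1
  have he' : IsZero (G1.F.obj e') := idem_e_zero h hef' h2.2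
  intro h0
  have h1 : IsZero (G1.F.obj (e ⊗ f')) := h0.of_iso (G1.F.mapIso i.symm)
  obtain ⟨a, b, c, hT, -, -⟩ := hef
  obtain ⟨a', b', c', hT', -, -⟩ := hef'
  obtain ⟨j⟩ := obj_iso_of_zero (G1 := G1) hT hf
  obtain ⟨j'⟩ := obj_iso_of_zero' (G1 := G1) hT' he'
  have h3 : IsZero (G1.F.obj e ⊗ G1.F.obj f') := h1.of_iso (Functor.Monoidal.μIso G1.F e f')
  have h4 : IsZero (𝟙_ K1.C ⊗ 𝟙_ K1.C) :=
    h3.of_iso ((Functor.Monoidal.εIso G1.F ≪≫ j.symm) ⊗ᵢ (Functor.Monoidal.εIso G1.F ≪≫ j'))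
  exact h.field1.1 (h4.of_iso (λ_ _).symm)

/-- Existence of the Balmer-Favi idempotent at the first point. -/
lemma exists_bf (h : SplitPair S K1 K2 G1 G2) : ∃ g : S.C, IsBalmerFavi (pt G1 h.field1) g := by
  obtain ⟨e⟩ := SplitPair.exists_decomp h (𝟙_ S.C)
  refine ⟨e.A1 ⊗ 𝟙_ S.C, {pt G1 h.field1}, ∅, e.A1, e.A2, 0, 𝟙_ S.C, isThomason_all h _,
    isThomason_all h _, by simp, ?_, ?_, ⟨Iso.refl _⟩⟩
  · refine ⟨e.i1, e.p2, 0, ?_, ?_, ?_⟩
    · have hT : Tri (biprod.inl : e.A1 ⟶ e.A1 ⊞ e.A2) biprod.snd 0 :=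
        binaryBiproductTriangle_distinguished e.A1 e.A2
      refine hT.of_iso (Iso.refl _)
        ⟨biprod.desc e.i1 e.i2, biprod.lift e.p1 e.p2, ?_, ?_⟩ (Iso.refl _) ?_ ?_ ?_
      · ext
        · simp [e.i1p1]
        · simp [e.i1p2 h]
        · simp [e.i2p1 h]
        · simp [e.i2p2]
      · rw [biprod.lift_desc, e.total]
      · simp
      · ext
        · simp [e.i1p2 h]
        · simp [e.i2p2]
      · simp
    · refine mem_locIdeal ⟨isCpt_of_retract e.ret1 isCpt_unit, ?_⟩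
      intro P hP
      rcases eq_or h P with rfl | rfl
      · rfl
      · exact (hP ⟨isCpt_of_retract e.ret1 isCpt_unit, e.z1⟩).elim
    · intro x hx hxY n g
      have h2 : IsZero (G2.F.obj x) := by
        by_contra h2
        exact pt_ne h (hxY (a := pt G2 h.field2) fun h0 => h2 h0.2).symm
      exact SplitPair.hom_eq_zero h (Or.inr e.z2) (Or.inl (shift_isZero G2 n h2)) g
  · refine ⟨0, 𝟙 _, 0, ?_, fun L hL _ => hL.zero (isZero_zero _), ?_⟩
    · exact contractible_distinguished₁ (𝟙_ S.C)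
    · intro x hx hxY n g
      have h1 : IsZero (G1.F.obj x) := by
        by_contra h1
        exact hxY (a := pt G1 h.field1) fun h0 => h1 h0.2
      have h2 : IsZero (G2.F.obj x) := by
        by_contra h2
        exact hxY (a := pt G2 h.field2) fun h0 => h2 h0.2
      exact SplitPair.hom_eq_zero h (Or.inl (shift_isZero G1 n h1))
        (Or.inl (shift_isZero G2 n h2)) g

/-- Minimality at the first point. -/
lemma minimal_bf (h : SplitPair S K1 K2 G1 G2) {g : S.C}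
    (hg : IsBalmerFavi (pt G1 h.field1) g) : IsMinimalLoc (LocId g) := by
  refine ⟨⟨g, mem_locIdeal rfl, fun h0 => bf_ne_zero h hg (obj_isZero G1 h0)⟩, ?_⟩
  rintro L' hL' hsub ⟨t, ht, ht0⟩ x hx
  have ht2 : IsZero (G2.F.obj t) := by
    refine hsub t ht _ (isLocIdeal_ker G2) ?_
    rintro s rfl
    exact bf_zero h hg
  have ht1 : ¬ IsZero (G1.F.obj t) := fun ht1 => ht0 (SplitPair.isZero h ht1 ht2)
  obtain ⟨d, hd, hret⟩ := exists_factor h ht1
  obtain ⟨r⟩ := hret g (bf_zero h hg)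
  refine hx L' hL' ?_
  rintro s rfl
  exact IsLocIdeal.retract hL' r (hL'.ideal (hL'.iso (hL'.ideal ht) ⟨β_ d t⟩))

/-- Recover the first component of `t` from `g ⊗ t`. -/
lemma comp_mem (h : SplitPair S K1 K2 G1 G2) {g t : S.C}
    (hg : IsBalmerFavi (pt G1 h.field1) g) {L : S.C → Prop} (hL : IsLocIdeal L)
    (hgt : L (g ⊗ t)) (e : Decomp G1 G2 t) : L e.A1 := by
  obtain ⟨d, hd, hret⟩ := exists_factor h (bf_ne_zero h hg)
  obtain ⟨r⟩ := hret e.A1 e.z1
  have h1 : L (d ⊗ (g ⊗ t)) := hL.ideal hgt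
  have h2 : L (t ⊗ (g ⊗ d)) := by
    refine hL.iso h1 ⟨β_ _ _ ≪≫ (β_ g t) ▷ᵢ d ≪≫ α_ _ _ _⟩
  refine IsLocIdeal.retract hL r (IsLocIdeal.retract hL ?_ h2)
  exact e.ret1.map (tensorRight (g ⊗ d))

/-- The abstract two-point theorem. -/
theorem SplitPair.stratified (h : SplitPair S K1 K2 G1 G2) : Stratified S.C := by
  constructor
  · obtain ⟨g1, hg1⟩ := exists_bf h
    obtain ⟨g2, hg2⟩ := exists_bf (SplitPair.swap h)
    have : ∀ P : Spc S.C, ∃ g, IsBalmerFavi P g := by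
      intro P
      rcases eq_or h P with rfl | rfl
      · exact ⟨g1, hg1⟩
      · exact ⟨g2, hg2⟩
    choose g hg using this
    exact ⟨g, hg⟩
  · intro g hg
    constructor
    · intro t
      funext x
      apply propext
      constructor
      · intro hx L hL hS
        refine hx L hL ?_
        rintro s rfl
        obtain ⟨e⟩ := SplitPair.exists_decomp h s
        have h1 : L e.A1 := comp_mem h (hg _) hL (hS _ ⟨_, rfl⟩) e
        have h2 : L e.A2 := comp_mem (SplitPair.swap h) (hg _) hL (hS _ ⟨_, rfl⟩) e.swap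
        exact IsLocIdeal.retract hL e.ret (IsLocIdeal.biprod hL h1 h2)
      · intro hx L hL hS
        refine hx L hL ?_
        rintro s ⟨P, rfl⟩
        exact hL.ideal (hS t rfl)
    · intro P
      rcases eq_or h P with rfl | rfl
      · exact minimal_bf h (hg _)
      · exact minimal_bf (SplitPair.swap h) (hg _)

/-- The abstract two-point theorem. -/
theorem twoPoint (h : SplitPair S K1 K2 G1 G2) : WeaklyNoetherian S.C ∧ Stratified S.C :=
  ⟨SplitPair.weaklyNoetherian h, SplitPair.stratified h⟩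

end Pool.Agent.H20.TT
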